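import Pool.Agent.Lib.MP_d9ddf5_al_h20.Sum

/-!
# MP_d9ddf5_al: maximal green sequences of acyclic quivers with multiple arrows
-/

set_option autoImplicit false

namespace Pool.Agent.Results.MP_d9ddf5_al.DeletingArrows

open Pool.Agent.MP_d9ddf5_al_h20

/-- Let `K` be an algebraically closed field, and let acyclic quivers be given by the numbers
`m i j` of arrows from `i` to `j`, with `i < j` whenever there is an arrow.

1. The finite maximal chains of torsion classes of `Q` have the same lengths as those finite
maximal chains of the quiver `single m`, in which all multiple arrows are deleted, at which for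
each multiple arrow `i → j` the vertex `i` enters the torsion class only after the vertex `j` has
left the torsion-free class.
2. The set of the lengths depends only on the numbers `min (m i j) 2`.
3. If the vertices fall into a first part and a second part such that two vertices of different
parts are never joined by exactly one arrow (and the arrows go from the first to the second part),
then the lengths for `Q` are exactly the sums of a length for the first and one for the second.
4. In this situation, if neither of the two parts has a gap, then `Q` has no gap. -/
theorem result (K : Type) [Field K] [IsAlgClosed K] :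
    (∀ (n : ℕ) (m : Fin n → Fin n → ℕ), (∀ i j, m i j ≠ 0 → i < j) → ∀ L,
      (IsLength K m L ↔ IsOrdLength K (single m) (fun i j => 2 ≤ m i j) L)) ∧
    (∀ (n : ℕ) (m m' : Fin n → Fin n → ℕ), (∀ i j, m i j ≠ 0 → i < j) →
      (∀ i j, min (m i j) 2 = min (m' i j) 2) → ∀ L, (IsLength K m L ↔ IsLength K m' L)) ∧
    ∀ (n1 n2 : ℕ) (m : Fin (n1 + n2) → Fin (n1 + n2) → ℕ), (∀ i j, m i j ≠ 0 → i < j) →
      (∀ i j, m (Fin.castAdd n2 i) (Fin.natAdd n1 j) ≠ 1) →
      (∀ L, IsLength K m L ↔
        ∃ L1 L2, IsLength K (fstPart m) L1 ∧ IsLength K (sndPart m) L2 ∧ L1 + L2 = L) ∧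
      ({L | IsLength K (fstPart m) L}.OrdConnected → {L | IsLength K (sndPart m) L}.OrdConnected →
        {L | IsLength K m L}.OrdConnected) :=
  ⟨fun _ _ hac L => isLength_iff hac L, fun _ _ _ hac h L => isLength_congr hac h L,
    fun _ _ m hac h => ⟨fun L => isLength_sum m hac h L, no_gap_sum m hac h⟩⟩

end Pool.Agent.Results.MP_d9ddf5_al.DeletingArrows
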