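import Pool.Agent.Lib.MP_d9ddf5_al_h20.Main

/-!
# MP_d9ddf5_al: no gaps for acyclic quivers whose parts without multiple arrows are Dynkin
-/

set_option autoImplicit false

namespace Pool.Agent.Results.MP_d9ddf5_al.MultipleArrows

open Pool.Agent.MP_d9ddf5_al_h20

/-- Let `Q` be the acyclic quiver with vertices `Fin n` and `m i j` arrows from `i` to `j`.
Suppose that the Tits form of `Q` is positive at every nonzero real vector whose support contains
no two vertices joined by a path of multiple arrows (that is, every full subquiver on such a set of
vertices is a disjoint union of Dynkin quivers). Then the set of the lengths of the finite maximal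
chains of torsion classes of `mod KQ`, which are the lengths of the maximal green sequences of
`Q`, has no gaps. -/
theorem result (K : Type) [Field K] [IsAlgClosed K] {n : ℕ} (m : Fin n → Fin n → ℕ)
    (hac : ∀ i j, m i j ≠ 0 → i < j)
    (hpos : ∀ d : Fin n → ℝ, d ≠ 0 →
      (∀ i j, Relation.TransGen (fun a b => 2 ≤ m a b) i j → d i * d j = 0) →
      0 < ∑ i, d i ^ 2 - ∑ i, ∑ j, (m i j : ℝ) * (d i * d j)) :
    {L : ℕ | IsLength K m L}.OrdConnected :=
  no_gap hac hpos

end Pool.Agent.Results.MP_d9ddf5_al.MultipleArrows
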